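import Pool.Agent.MP_3b5bbf_co.Sb.D6
import Pool.Agent.MP_3b5bbf_co.Sb.D7

/-! Not handed in: the 6 × 6 board of side 3/8 and the 7 × 7 board of side 7/23. -/

open Pool.Agent.MP_3b5bbf_co

theorem Pool.Agent.MP_3b5bbf_co.Old.six :
    ∃ F : FlatFolding, F.Checkerboard 6 (3 / 8) := by
  have := Sb.d6_board
  norm_num at this ⊢
  exact this

theorem Pool.Agent.MP_3b5bbf_co.Old.seven :
    ∃ F : FlatFolding, F.Checkerboard 7 (7 / 23) := Sb.d7_board
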